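import Pool.Agent.H44.MS.Basics

set_option autoImplicit false

namespace Pool.Agent.H77.MS

open Finset Real Pool.Agent.H44.MS

theorem VA_nonneg (A : ℕ → Prop) (z : ℕ) : 0 ≤ VA A z := by
  unfold VA
  refine prod_nonneg fun p hp => ?_
  have h1 : (1 : ℝ) ≤ p := by exact_mod_cast (mem_Icc.1 hp).1
  have h2 : ic (p.Prime ∧ A p) / (p : ℝ) ≤ 1 := by
    rw [div_le_one (by linarith)]
    exact (ic_le_one _).trans h1
  linarith

theorem sum_divisors_eq_Icc (f : ℕ → ℝ) (X m : ℕ) (hm : 0 < m) (hf : ∀ d, f d ≠ 0 → d ≤ X) :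
    ∑ d ∈ m.divisors, f d = ∑ d ∈ Icc 1 X, ic (d ∣ m) * f d := by
  classical
  rw [sum_ic_mul]
  have h1 : ∑ d ∈ m.divisors, f d = ∑ d ∈ m.divisors.filter (fun d => d ≤ X), f d := by
    rw [sum_filter_of_ne]
    intro d _ hd
    exact hf d hd
  rw [h1]
  refine sum_congr ?_ fun _ _ => rfl
  ext d
  rw [mem_filter, mem_filter, Nat.mem_divisors, mem_Icc]
  constructor
  · rintro ⟨⟨h2, h3⟩, h4⟩
    exact ⟨⟨Nat.pos_of_dvd_of_pos h2 hm, h4⟩, h2⟩
  · rintro ⟨⟨_, h3⟩, h4⟩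
    exact ⟨⟨h4, hm.ne'⟩, h3⟩

theorem sum_ic_dvd (N k : ℕ) : ∑ m ∈ Icc 1 N, ic (k ∣ m) = ((N / k : ℕ) : ℝ) := by
  classical
  rw [sum_ic]
  have h2 : (Icc 1 N).filter (fun m => k ∣ m) = (Finset.Ioc 0 N).filter (fun m => k ∣ m) := by
    ext m
    simp only [Finset.mem_filter, Finset.mem_Icc, Finset.mem_Ioc]
    constructor
    · rintro ⟨⟨h3, h4⟩, h5⟩; exact ⟨⟨by omega, h4⟩, h5⟩
    · rintro ⟨⟨h3, h4⟩, h5⟩; exact ⟨⟨by omega, h4⟩, h5⟩
  rw [h2, Nat.Ioc_filter_dvd_card_eq_div]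

theorem pf_B5 (hTH : T_TH) (hLV : T_LV) (hDNb : T_DNb) (hR0 : T_R0) : T_B5 := by
  obtain ⟨S, hS⟩ := hDNb
  obtain ⟨C, hC, hR⟩ := hR0
  refine ⟨C, hC, S, fun s hs y z E N hz hzE => ?_⟩
  set D := z ^ (4 * s + 5) with hD
  set A := A3 y with hAdef
  have hkapD : ∀ d : ℕ, kap A s z d ≠ 0 → d ≤ D := by
    intro d hd
    unfold kap at hd
    rw [neg_ne_zero] at hd
    exact (hLV A s z d hz).2 (ic_ne_zero (left_ne_zero_of_mul hd))
  have hkapS : ∀ d : ℕ, kap A s z d ≠ 0 → Smooth z d := by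
    intro d hd
    unfold kap at hd
    rw [neg_ne_zero] at hd
    exact an_smooth (ic_ne_zero (left_ne_zero_of_mul hd)).1
  -- pointwise bound
  have hpt : ∀ m ∈ Icc 1 N, (th A s z m - ic (Good y z m)) * |RE z E m| ≤
      ∑ d ∈ Icc 1 D, ∑ e ∈ Icc 1 E, (kap A s z d * ic (Rough z e)) * ic (d * e ∣ m) := by
    intro m hm
    have hm0 : 0 < m := (mem_Icc.1 hm).1
    have h1 := hTH A s z m hm0
    rw [good_iff_sv]
    have h2 : |RE z E m| ≤ ∑ e ∈ m.divisors, ic (Rough z e ∧ e ≤ E) := by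
      unfold RE
      refine (abs_sum_le_sum_abs _ _).trans (sum_le_sum fun e _ => ?_)
      rw [abs_mul, abs_ic]
      exact mul_le_of_le_one_right (ic_nonneg _) (abs_chi_le _)
    have h3 : (th A s z m - ic (Sv A z m)) * |RE z E m| ≤
        exc A s z m * ∑ e ∈ m.divisors, ic (Rough z e ∧ e ≤ E) :=
      mul_le_mul h1.2 h2 (abs_nonneg _) (by linarith [h1.1, h1.2])
    refine h3.trans (le_of_eq ?_)
    unfold exc
    rw [sum_divisors_eq_Icc _ D m hm0 hkapD,
      sum_divisors_eq_Icc _ E m hm0 (fun e he => (ic_ne_zero he).2), sum_mul_sum]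
    refine sum_congr rfl fun d hd => sum_congr rfl fun e he => ?_
    have h7 : ic (Rough z e ∧ e ≤ E) = ic (Rough z e) :=
      ic_congr ⟨fun h => h.1, fun h => ⟨h, (mem_Icc.1 he).2⟩⟩
    rw [h7]
    by_cases hk : kap A s z d = 0
    · rw [hk]; ring
    by_cases hr : Rough z e
    swap
    · rw [ic_neg hr]; ring
    have hcop : Nat.Coprime d e := coprime_of_smooth_rough (hkapS d hk) hr
    have h8 : ic (d * e ∣ m) = ic (d ∣ m) * ic (e ∣ m) := by
      rw [← ic_and]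
      exact ic_congr ⟨fun h => ⟨(dvd_mul_right d e).trans h, (dvd_mul_left e d).trans h⟩,
        fun h => hcop.mul_dvd_of_dvd_of_dvd h.1 h.2⟩
    rw [h8]
    ring
  refine (sum_le_sum hpt).trans ?_
  rw [sum_comm]
  have h4 : ∀ d ∈ Icc 1 D, ∑ m ∈ Icc 1 N, ∑ e ∈ Icc 1 E,
      (kap A s z d * ic (Rough z e)) * ic (d * e ∣ m) =
      ∑ e ∈ Icc 1 E, (kap A s z d * ic (Rough z e)) * ((N / (d * e) : ℕ) : ℝ) := by
    intro d _
    rw [sum_comm]
    refine sum_congr rfl fun e _ => ?_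
    rw [← mul_sum, sum_ic_dvd]
  rw [sum_congr rfl h4, sum_comm]
  have hVA := VA_nonneg A z
  have h5 : ∀ e ∈ Icc 1 E, ∑ d ∈ Icc 1 D, (kap A s z d * ic (Rough z e)) *
      ((N / (d * e) : ℕ) : ℝ) ≤ (N * (VA A z / 2 ^ s)) * (ic (Rough z e) / e) + D := by
    intro e he
    have he1 : 1 ≤ e := (mem_Icc.1 he).1
    have he0 : (0 : ℝ) < e := by exact_mod_cast he1
    have h6 : ∑ d ∈ Icc 1 D, kap A s z d * ((N / (d * e) : ℕ) : ℝ) ≤
        N / e * (VA A z / 2 ^ s) + D := by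
      have h7 : ∀ d ∈ Icc 1 D, kap A s z d * ((N / (d * e) : ℕ) : ℝ) ≤
          N / e * (kap A s z d / d) + 1 := by
        intro d hd
        have hd0 : (0 : ℝ) < d := by exact_mod_cast (mem_Icc.1 hd).1
        have h8 : ((N / (d * e) : ℕ) : ℝ) ≤ N / (d * e) := by
          have := @Nat.cast_div_le ℝ _ _ _ N (d * e)
          rwa [Nat.cast_mul] at this
        have h9 : (N : ℝ) / (d * e) < ((N / (d * e) : ℕ) : ℝ) + 1 := by
          have := Nat.lt_floor_add_one ((N : ℝ) / ((d * e : ℕ) : ℝ))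
          rwa [Nat.floor_div_eq_div, Nat.cast_mul] at this
        have h10 := abs_le.1 (abs_kap_le A s z d)
        have h11 : kap A s z d * ((N / (d * e) : ℕ) : ℝ) - kap A s z d * (N / (d * e)) ≤ 1 := by
          rw [← mul_sub]
          nlinarith [h10.1, h10.2]
        have h12 : kap A s z d * ((N : ℝ) / (d * e)) = N / e * (kap A s z d / d) := by
          field_simp
        linarith
      refine (sum_le_sum h7).trans ?_
      rw [sum_add_distrib, ← mul_sum, sum_const, Nat.card_Icc, nsmul_eq_mul, mul_one,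
        Nat.add_sub_cancel]
      have h13 := hS s hs A z hz
      have h14 : (0 : ℝ) ≤ N / e := by positivity
      have := mul_le_mul_of_nonneg_left h13 h14
      linarith
    have h15 : ∑ d ∈ Icc 1 D, (kap A s z d * ic (Rough z e)) * ((N / (d * e) : ℕ) : ℝ) =
        ic (Rough z e) * ∑ d ∈ Icc 1 D, kap A s z d * ((N / (d * e) : ℕ) : ℝ) := by
      rw [mul_sum]
      refine sum_congr rfl fun d _ => ?_
      ring
    rw [h15]
    refine (mul_le_mul_of_nonneg_left h6 (ic_nonneg _)).trans ?_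
    have h16 : ic (Rough z e) * (D : ℝ) ≤ D := mul_le_of_le_one_left (Nat.cast_nonneg _) (ic_le_one _)
    have h17 : ic (Rough z e) * ((N : ℝ) / e * (VA A z / 2 ^ s)) =
        (N * (VA A z / 2 ^ s)) * (ic (Rough z e) / e) := by ring
    rw [mul_add, h17]
    linarith
  refine (sum_le_sum h5).trans ?_
  rw [sum_add_distrib, ← mul_sum, sum_const, Nat.card_Icc, nsmul_eq_mul, Nat.add_sub_cancel]
  have h18 := hR z E hz hzE
  have h19 : (0 : ℝ) ≤ N * (VA A z / 2 ^ s) := by positivity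
  have h20 := mul_le_mul_of_nonneg_left h18 h19
  have h21 : (D : ℝ) = (z : ℝ) ^ (4 * s + 5) := by rw [hD]; push_cast; rfl
  rw [h21]
  have h22 : (N : ℝ) * (VA A z / 2 ^ s) * (C * (Real.log E / Real.log z)) =
      C * N * (VA A z / 2 ^ s) * (Real.log E / Real.log z) := by ring
  rw [h22] at h20
  linarith

end Pool.Agent.H77.MS
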