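import Pool.Agent.H44.MS.Basics

set_option autoImplicit false

namespace Pool.Agent.H77.MS

open Finset Real Pool.Agent.H44.MS

/-- Sums over `k = d e` with the coefficients `cc`. -/
theorem sum_cc (hLV : T_LV) (y s z E : ℕ) (hz : 2 ≤ z) (G : ℕ → ℝ) :
    ∑ k ∈ Icc 1 (z ^ (4 * s + 4) * E), cc y s z E k * G k =
      2 * ∑ d ∈ Icc 1 (z ^ (4 * s + 4)), ∑ e ∈ Icc 1 E,
        lam (A3 y) s z d * (ic (Rough z e) * chi e) * G (d * e) := by
  classical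
  set D := z ^ (4 * s + 4) with hD
  have hlam : ∀ d : ℕ, lam (A3 y) s z d ≠ 0 → d ≤ D := by
    intro d hd
    unfold lam at hd
    have h1 := left_ne_zero_of_mul hd
    exact (hLV (A3 y) s z d hz).1 (ic_ne_zero h1)
  let F : ℕ × ℕ → ℝ := fun x => lam (A3 y) s z x.1 * (ic (Rough z x.2 ∧ x.2 ≤ E) * chi x.2)
  have hF : ∀ x : ℕ × ℕ, F x ≠ 0 → x.1 ≤ D ∧ x.2 ≤ E := by
    intro x hx
    refine ⟨hlam _ (left_ne_zero_of_mul hx), ?_⟩
    exact (ic_ne_zero (left_ne_zero_of_mul (right_ne_zero_of_mul hx))).2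
  have h1 : ∀ k ∈ Icc 1 (D * E), cc y s z E k * G k =
      2 * ∑ x ∈ (Icc 1 D ×ˢ Icc 1 E).filter (fun x => x.1 * x.2 = k), F x * G (x.1 * x.2) := by
    intro k hk
    have hk1 := (mem_Icc.1 hk).1
    unfold cc
    rw [mul_assoc]
    congr 1
    rw [sum_mul]
    have h2 : ∑ x ∈ (Icc 1 D ×ˢ Icc 1 E).filter (fun x => x.1 * x.2 = k), F x * G (x.1 * x.2) =
        ∑ x ∈ k.divisorsAntidiagonal, F x * G (x.1 * x.2) := by
      refine sum_subset ?_ ?_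
      · intro x hx
        rw [mem_filter] at hx
        rw [Nat.mem_divisorsAntidiagonal]
        exact ⟨hx.2, by omega⟩
      · intro x hx hx2
        rw [Nat.mem_divisorsAntidiagonal] at hx
        by_contra hne
        have h3 := hF x (left_ne_zero_of_mul hne)
        apply hx2
        rw [mem_filter, mem_product, mem_Icc, mem_Icc]
        have h4 : 0 < x.1 * x.2 := by omega
        have h5 : 0 < x.1 := Nat.pos_of_mul_pos_right h4
        have h6 : 0 < x.2 := Nat.pos_of_mul_pos_left h4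
        exact ⟨⟨⟨h5, h3.1⟩, ⟨h6, h3.2⟩⟩, hx.1⟩
    rw [h2]
    refine sum_congr rfl fun x hx => ?_
    rw [Nat.mem_divisorsAntidiagonal] at hx
    rw [hx.1]
  rw [sum_congr rfl h1, ← mul_sum]
  congr 1
  rw [sum_fiberwise_of_maps_to (g := fun x : ℕ × ℕ => x.1 * x.2)
    (f := fun x : ℕ × ℕ => F x * G (x.1 * x.2)), sum_product]
  · refine sum_congr rfl fun d hd => sum_congr rfl fun e he => ?_
    have h7 : ic (Rough z e ∧ e ≤ E) = ic (Rough z e) :=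
      ic_congr ⟨fun h => h.1, fun h => ⟨h, (mem_Icc.1 he).2⟩⟩
    simp only [F]
    rw [h7]
  · intro x hx
    rw [mem_product, mem_Icc, mem_Icc] at hx
    rw [mem_Icc]
    exact ⟨Nat.mul_pos (by omega) (by omega), Nat.mul_le_mul hx.1.2 hx.2.2⟩

theorem lcm_mul_mul {z d₁ d₂ e₁ e₂ : ℕ} (h1 : Smooth z d₁) (h2 : Smooth z d₂) (h3 : Rough z e₁)
    (h4 : Rough z e₂) (p1 : 0 < d₁) (p2 : 0 < d₂) (p3 : 0 < e₁) (p4 : 0 < e₂) :
    Nat.lcm (d₁ * e₁) (d₂ * e₂) = Nat.lcm d₁ d₂ * Nat.lcm e₁ e₂ := by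
  have c1 : Nat.Coprime d₂ e₂ := coprime_of_smooth_rough h2 h4
  have c2 : Nat.Coprime d₂ e₁ := coprime_of_smooth_rough h2 h3
  have c3 : Nat.Coprime d₁ e₂ := coprime_of_smooth_rough h1 h4
  have hg : Nat.gcd (d₁ * e₁) (d₂ * e₂) = Nat.gcd d₁ d₂ * Nat.gcd e₁ e₂ := by
    rw [Nat.Coprime.gcd_mul _ c1, Nat.Coprime.gcd_mul_right_cancel _ c2.symm,
      Nat.Coprime.gcd_mul_left_cancel _ c3]
  have e1 := Nat.gcd_mul_lcm (d₁ * e₁) (d₂ * e₂)
  have e2 := Nat.gcd_mul_lcm d₁ d₂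
  have e3 := Nat.gcd_mul_lcm e₁ e₂
  rw [hg] at e1
  have hpos : 0 < Nat.gcd d₁ d₂ * Nat.gcd e₁ e₂ :=
    Nat.mul_pos (Nat.gcd_pos_of_pos_left _ p1) (Nat.gcd_pos_of_pos_left _ p3)
  apply Nat.eq_of_mul_eq_mul_left hpos
  rw [e1]
  calc d₁ * e₁ * (d₂ * e₂) = (d₁ * d₂) * (e₁ * e₂) := by ring
    _ = (Nat.gcd d₁ d₂ * Nat.lcm d₁ d₂) * (Nat.gcd e₁ e₂ * Nat.lcm e₁ e₂) := by rw [e2, e3]
    _ = _ := by ring

/-- The sum over pairs of rough numbers. -/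
theorem sum_lcm_le (z E : ℕ) :
    ∑ e₁ ∈ Icc 1 E, ∑ e₂ ∈ Icc 1 E, ic (Rough z e₁) * ic (Rough z e₂) / (Nat.lcm e₁ e₂ : ℝ) ≤
      (∑ e ∈ Icc 1 E, ic (Rough z e) / e) ^ 3 := by
  classical
  have hcube : (∑ e ∈ Icc 1 E, ic (Rough z e) / (e : ℝ)) ^ 3 =
      ∑ x ∈ Icc 1 E ×ˢ (Icc 1 E ×ˢ Icc 1 E), ic (Rough z x.1) / x.1 *
        (ic (Rough z x.2.1) / x.2.1 * (ic (Rough z x.2.2) / x.2.2)) := by
    rw [sum_product, pow_succ, pow_two, mul_assoc, sum_mul]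
    refine sum_congr rfl fun a _ => ?_
    rw [sum_product, sum_mul_sum, mul_sum]
    refine sum_congr rfl fun b _ => ?_
    rw [mul_sum]
  rw [hcube, ← sum_product']
  -- the injection
  have hle : ∀ x ∈ Icc 1 E ×ˢ Icc 1 E, ic (Rough z x.1) * ic (Rough z x.2) /
      (Nat.lcm x.1 x.2 : ℝ) ≤ (fun t : ℕ × ℕ × ℕ => ic (Rough z t.1) / (t.1 : ℝ) *
        (ic (Rough z t.2.1) / t.2.1 * (ic (Rough z t.2.2) / t.2.2)))
        (Nat.gcd x.1 x.2, x.1 / Nat.gcd x.1 x.2, x.2 / Nat.gcd x.1 x.2) := by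
    intro x hx
    rw [mem_product, mem_Icc, mem_Icc] at hx
    obtain ⟨a, b⟩ := x
    simp only at hx ⊢
    have ha : 0 < a := by omega
    have hb : 0 < b := by omega
    have hg : 0 < Nat.gcd a b := Nat.gcd_pos_of_pos_left _ ha
    by_cases h : Rough z a ∧ Rough z b
    · have r1 : Rough z (Nat.gcd a b) := rough_dvd h.1 (Nat.gcd_dvd_left a b)
      have r2 : Rough z (a / Nat.gcd a b) := rough_dvd h.1 (Nat.div_dvd_of_dvd (Nat.gcd_dvd_left a b))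
      have r3 : Rough z (b / Nat.gcd a b) := rough_dvd h.2 (Nat.div_dvd_of_dvd (Nat.gcd_dvd_right a b))
      rw [ic_pos h.1, ic_pos h.2, ic_pos r1, ic_pos r2, ic_pos r3]
      have e1 : (Nat.lcm a b : ℝ) = (Nat.gcd a b : ℝ) * (((a / Nat.gcd a b : ℕ) : ℝ) *
          ((b / Nat.gcd a b : ℕ) : ℝ)) := by
        have e2 : Nat.lcm a b = Nat.gcd a b * ((a / Nat.gcd a b) * (b / Nat.gcd a b)) := by
          apply Nat.eq_of_mul_eq_mul_left hg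
          rw [Nat.gcd_mul_lcm]
          calc a * b = (Nat.gcd a b * (a / Nat.gcd a b)) * (Nat.gcd a b * (b / Nat.gcd a b)) := by
                rw [Nat.mul_div_cancel' (Nat.gcd_dvd_left a b),
                  Nat.mul_div_cancel' (Nat.gcd_dvd_right a b)]
            _ = _ := by ring
        exact_mod_cast e2
      rw [e1]
      apply le_of_eq
      rw [div_mul_div_comm, div_mul_div_comm]
      norm_num
    · have hz0 : ic (Rough z a) * ic (Rough z b) = 0 := by rw [← ic_and, ic_neg h]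
      rw [hz0, zero_div]
      have := ic_nonneg (Rough z (Nat.gcd a b))
      have := ic_nonneg (Rough z (a / Nat.gcd a b))
      have := ic_nonneg (Rough z (b / Nat.gcd a b))
      positivity
  refine (sum_le_sum hle).trans ?_
  have hinj : Set.InjOn (fun x : ℕ × ℕ => (Nat.gcd x.1 x.2, x.1 / Nat.gcd x.1 x.2,
      x.2 / Nat.gcd x.1 x.2)) (Icc 1 E ×ˢ Icc 1 E : Finset (ℕ × ℕ)) := by
    intro x _ x' _ h
    obtain ⟨a, b⟩ := x
    obtain ⟨a', b'⟩ := x'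
    simp only [Prod.mk.injEq] at h
    obtain ⟨h1, h2, h3⟩ := h
    have e1 := Nat.mul_div_cancel' (Nat.gcd_dvd_left a b)
    have e2 := Nat.mul_div_cancel' (Nat.gcd_dvd_right a b)
    rw [h2, h1] at e1
    rw [h3, h1] at e2
    rw [Nat.mul_div_cancel' (Nat.gcd_dvd_left a' b')] at e1
    rw [Nat.mul_div_cancel' (Nat.gcd_dvd_right a' b')] at e2
    rw [← e1, ← e2]
  rw [← sum_image (f := fun t : ℕ × ℕ × ℕ => ic (Rough z t.1) / (t.1 : ℝ) *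
        (ic (Rough z t.2.1) / t.2.1 * (ic (Rough z t.2.2) / t.2.2))) hinj]
  refine sum_le_sum_of_subset_of_nonneg ?_ ?_
  · intro t ht
    rw [mem_image] at ht
    obtain ⟨x, hx, rfl⟩ := ht
    rw [mem_product, mem_Icc, mem_Icc] at hx
    obtain ⟨a, b⟩ := x
    simp only at hx
    have ha : 0 < a := by omega
    have hb : 0 < b := by omega
    have hg : 0 < Nat.gcd a b := Nat.gcd_pos_of_pos_left _ ha
    have hga : Nat.gcd a b ≤ a := Nat.le_of_dvd ha (Nat.gcd_dvd_left a b)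
    have hgb : Nat.gcd a b ≤ b := Nat.le_of_dvd hb (Nat.gcd_dvd_right a b)
    have h1 : 0 < a / Nat.gcd a b := Nat.div_pos hga hg
    have h2 : 0 < b / Nat.gcd a b := Nat.div_pos hgb hg
    have h3 : a / Nat.gcd a b ≤ a := Nat.div_le_self _ _
    have h4 : b / Nat.gcd a b ≤ b := Nat.div_le_self _ _
    simp only [mem_product, mem_Icc]
    omega
  · intro t _ _
    have := ic_nonneg (Rough z t.1)
    have := ic_nonneg (Rough z t.2.1)
    have := ic_nonneg (Rough z t.2.2)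
    positivity

theorem pf_DG (hDNc : T_DNc) (hLV : T_LV) (hR0 : T_R0) : T_DG := by
  obtain ⟨S, hS⟩ := hDNc
  obtain ⟨C, hC, hR⟩ := hR0
  refine ⟨8 * C ^ 3, by positivity, S, fun s hs y z E hz hzE => ?_⟩
  set D := z ^ (4 * s + 4) with hD
  -- rewrite the double sum
  have h1 : ∑ k₁ ∈ Icc 1 (D * E), ∑ k₂ ∈ Icc 1 (D * E),
      cc y s z E k₁ * cc y s z E k₂ / (Nat.lcm k₁ k₂ : ℝ) =
      4 * ((∑ d₁ ∈ Icc 1 D, ∑ d₂ ∈ Icc 1 D,
        lam (A3 y) s z d₁ * lam (A3 y) s z d₂ / (Nat.lcm d₁ d₂ : ℝ)) *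
        ∑ e₁ ∈ Icc 1 E, ∑ e₂ ∈ Icc 1 E,
          (ic (Rough z e₁) * chi e₁) * (ic (Rough z e₂) * chi e₂) / (Nat.lcm e₁ e₂ : ℝ)) := by
    have h2 : ∀ k₁ ∈ Icc 1 (D * E), ∑ k₂ ∈ Icc 1 (D * E),
        cc y s z E k₁ * cc y s z E k₂ / (Nat.lcm k₁ k₂ : ℝ) =
        cc y s z E k₁ * (2 * ∑ d ∈ Icc 1 D, ∑ e ∈ Icc 1 E,
          lam (A3 y) s z d * (ic (Rough z e) * chi e) * (1 / (Nat.lcm k₁ (d * e) : ℝ))) := by
      intro k₁ _
      rw [← sum_cc hLV y s z E hz (fun k => 1 / (Nat.lcm k₁ k : ℝ)), mul_sum]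
      refine sum_congr rfl fun k₂ _ => ?_
      ring
    rw [sum_congr rfl h2, sum_cc hLV y s z E hz]
    have h3 : ∀ d₁ ∈ Icc 1 D, ∀ e₁ ∈ Icc 1 E, ∀ d₂ ∈ Icc 1 D, ∀ e₂ ∈ Icc 1 E,
        (lam (A3 y) s z d₁ * (ic (Rough z e₁) * chi e₁)) *
          (lam (A3 y) s z d₂ * (ic (Rough z e₂) * chi e₂) *
            (1 / (Nat.lcm (d₁ * e₁) (d₂ * e₂) : ℝ))) =
        (lam (A3 y) s z d₁ * lam (A3 y) s z d₂ / (Nat.lcm d₁ d₂ : ℝ)) *
          ((ic (Rough z e₁) * chi e₁) * (ic (Rough z e₂) * chi e₂) / (Nat.lcm e₁ e₂ : ℝ)) := by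
      intro d₁ hd₁ e₁ he₁ d₂ hd₂ e₂ he₂
      by_cases ha : lam (A3 y) s z d₁ = 0
      · rw [ha]; ring
      by_cases hb : lam (A3 y) s z d₂ = 0
      · rw [hb]; ring
      by_cases hc : Rough z e₁
      swap
      · rw [ic_neg hc]; ring
      by_cases hd : Rough z e₂
      swap
      · rw [ic_neg hd]; ring
      have s1 : Smooth z d₁ := an_smooth (ic_ne_zero (left_ne_zero_of_mul ha)).1
      have s2 : Smooth z d₂ := an_smooth (ic_ne_zero (left_ne_zero_of_mul hb)).1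
      rw [lcm_mul_mul s1 s2 hc hd (mem_Icc.1 hd₁).1 (mem_Icc.1 hd₂).1 (mem_Icc.1 he₁).1
        (mem_Icc.1 he₂).1]
      push_cast
      rw [one_div, mul_inv]
      ring
    have h4 : ∀ d₁ ∈ Icc 1 D, ∑ e₁ ∈ Icc 1 E,
        lam (A3 y) s z d₁ * (ic (Rough z e₁) * chi e₁) * (2 * ∑ d ∈ Icc 1 D, ∑ e ∈ Icc 1 E,
          lam (A3 y) s z d * (ic (Rough z e) * chi e) * (1 / (Nat.lcm (d₁ * e₁) (d * e) : ℝ))) =
        2 * ((∑ d₂ ∈ Icc 1 D, lam (A3 y) s z d₁ * lam (A3 y) s z d₂ / (Nat.lcm d₁ d₂ : ℝ)) *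
          ∑ e₁ ∈ Icc 1 E, ∑ e₂ ∈ Icc 1 E,
          (ic (Rough z e₁) * chi e₁) * (ic (Rough z e₂) * chi e₂) / (Nat.lcm e₁ e₂ : ℝ)) := by
      intro d₁ hd₁
      rw [mul_comm (∑ d₂ ∈ Icc 1 D, _), sum_mul, mul_sum]
      refine sum_congr rfl fun e₁ he₁ => ?_
      rw [mul_left_comm, mul_sum]
      congr 1
      rw [mul_sum]
      refine sum_congr rfl fun d₂ hd₂ => ?_
      rw [mul_sum, sum_mul]
      refine sum_congr rfl fun e₂ he₂ => ?_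
      rw [h3 d₁ hd₁ e₁ he₁ d₂ hd₂ e₂ he₂]
      ring
    rw [sum_congr rfl h4, ← mul_sum, ← sum_mul]
    ring
  rw [h1, abs_mul, abs_mul, abs_of_pos (by norm_num : (0 : ℝ) < 4)]
  have hA := hS s hs (A3 y) z hz
  have hB : |∑ e₁ ∈ Icc 1 E, ∑ e₂ ∈ Icc 1 E,
      (ic (Rough z e₁) * chi e₁) * (ic (Rough z e₂) * chi e₂) / (Nat.lcm e₁ e₂ : ℝ)| ≤
      (C * (Real.log E / Real.log z)) ^ 3 := by
    have h5 : |∑ e₁ ∈ Icc 1 E, ∑ e₂ ∈ Icc 1 E,
        (ic (Rough z e₁) * chi e₁) * (ic (Rough z e₂) * chi e₂) / (Nat.lcm e₁ e₂ : ℝ)| ≤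
        ∑ e₁ ∈ Icc 1 E, ∑ e₂ ∈ Icc 1 E,
          ic (Rough z e₁) * ic (Rough z e₂) / (Nat.lcm e₁ e₂ : ℝ) := by
      refine (abs_sum_le_sum_abs _ _).trans (sum_le_sum fun e₁ _ => ?_)
      refine (abs_sum_le_sum_abs _ _).trans (sum_le_sum fun e₂ _ => ?_)
      rw [abs_div, abs_mul, abs_mul, abs_mul, abs_ic, abs_ic,
        abs_of_nonneg (Nat.cast_nonneg (Nat.lcm e₁ e₂) : (0 : ℝ) ≤ _)]
      refine div_le_div_of_nonneg_right ?_ (Nat.cast_nonneg _)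
      exact mul_le_mul (mul_le_of_le_one_right (ic_nonneg _) (abs_chi_le _))
        (mul_le_of_le_one_right (ic_nonneg _) (abs_chi_le _))
        (mul_nonneg (ic_nonneg _) (abs_nonneg _)) (ic_nonneg _)
    refine h5.trans ((sum_lcm_le z E).trans ?_)
    refine pow_le_pow_left₀ (sum_nonneg fun e _ => ?_) (hR z E hz hzE) 3
    have := ic_nonneg (Rough z e)
    positivity
  have hVA : 0 ≤ 2 * VA (A3 y) z := (abs_nonneg _).trans hA
  calc 4 * (|∑ d₁ ∈ Icc 1 D, ∑ d₂ ∈ Icc 1 D,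
        lam (A3 y) s z d₁ * lam (A3 y) s z d₂ / (Nat.lcm d₁ d₂ : ℝ)| * _) ≤
      4 * ((2 * VA (A3 y) z) * (C * (Real.log E / Real.log z)) ^ 3) :=
        mul_le_mul_of_nonneg_left (mul_le_mul hA hB (abs_nonneg _) hVA) (by norm_num)
    _ = 8 * C ^ 3 * VA (A3 y) z * (Real.log E / Real.log z) ^ 3 := by ring

end Pool.Agent.H77.MS
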